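import Pool.Agent.LPV.Stmts
import Pool.Agent.Helper3_LPK.SUM
import Pool.Agent.Helper54_LPK.CBN

/-!
# Squad LPV, row WSL: squares of class sums of degree `l`, half width
-/

set_option autoImplicit false

noncomputable section

open MeasureTheory Filter Topology
open scoped RealInnerProductSpace

namespace Pool.Agent.LPV.H88

open Pool.Agent.LPK Pool.Agent.LPV

/-- half width functions with polynomial growth are bounded by a Gaussian -/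
theorem wh_bound (s : List ℤ) (l : ℕ) : ∃ K : ℝ, 0 ≤ K ∧ ∀ (n : ℕ) (x : V n),
    |WH s x| * (1 + ‖x‖ ^ 2) ^ l ≤ K * Real.exp (-(1 / 8) * ‖x‖ ^ 2) := by
  obtain ⟨C, m, hC, h⟩ := Pool.Agent.LPK.H3.e1_bound s
  obtain ⟨K, hK, hk⟩ := Pool.Agent.LPK.H3.pow_exp (m + l)
  refine ⟨C * (2 ^ (m + l) * K), by positivity, fun n x => ?_⟩
  have h1 := h (‖x‖ ^ 2) (by positivity)
  have h2 := hk (‖x‖ ^ 2 / 2) (by positivity)
  have h3 : 0 < Real.exp (-‖x‖ ^ 2 / 4) := Real.exp_pos _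
  have h4 : (1 + ‖x‖ ^ 2) ^ (m + l) ≤ 2 ^ (m + l) * (1 + ‖x‖ ^ 2 / 2) ^ (m + l) := by
    rw [← mul_pow]
    apply pow_le_pow_left₀ (by positivity)
    have : 0 ≤ ‖x‖ ^ 2 := by positivity
    linarith
  unfold WH
  rw [abs_mul, abs_of_pos h3]
  calc |e1 s (‖x‖ ^ 2)| * Real.exp (-‖x‖ ^ 2 / 4) * (1 + ‖x‖ ^ 2) ^ l
      ≤ C * (1 + ‖x‖ ^ 2) ^ m * Real.exp (-‖x‖ ^ 2 / 4) * (1 + ‖x‖ ^ 2) ^ l := by gcongr
    _ = C * ((1 + ‖x‖ ^ 2) ^ (m + l) * Real.exp (-‖x‖ ^ 2 / 4)) := by rw [pow_add]; ring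
    _ ≤ C * ((2 ^ (m + l) * (1 + ‖x‖ ^ 2 / 2) ^ (m + l)) * Real.exp (-‖x‖ ^ 2 / 4)) := by gcongr
    _ = C * (2 ^ (m + l) * ((1 + ‖x‖ ^ 2 / 2) ^ (m + l) * Real.exp (-(‖x‖ ^ 2 / 2) / 2))) := by
        rw [show -(‖x‖ ^ 2 / 2) / 2 = -‖x‖ ^ 2 / 4 by ring]
        ring
    _ ≤ C * (2 ^ (m + l) * (K * Real.exp (-(1 / 4) * (‖x‖ ^ 2 / 2)))) := by gcongr
    _ = C * (2 ^ (m + l) * K) * Real.exp (-(1 / 8) * ‖x‖ ^ 2) := by
        rw [show -(1 / 4) * (‖x‖ ^ 2 / 2) = -(1 / 8) * ‖x‖ ^ 2 by ring]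
        ring

/-- summability of half width functions with polynomial growth -/
theorem wh_summable (h1 : DuaStmt) {n : ℕ} {κ : ℝ} {b b' : Fin n → V n} (hdu : Du κ b b')
    (s : List ℤ) (l : ℕ) (φ : V n → ℝ) (C : ℝ) (hφ : ∀ x, |φ x| ≤ C * (1 + ‖x‖ ^ 2) ^ l) :
    Summable fun a : Fin n → ℤ => WH s (pt b a) * φ (pt b a) := by
  obtain ⟨-, -, ⟨c, hc, hlow⟩, -, -⟩ := h1 n κ b b' hdu
  obtain ⟨K, hK, hk⟩ := wh_bound s l
  have hE := Pool.Agent.LPK.H3.summable_E (c := c / 8) (by positivity) n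
  refine Summable.of_norm_bounded (hE.mul_left (|C| * K)) fun a => ?_
  have e1 : Real.exp (-(1 / 8) * ‖pt b a‖ ^ 2) ≤ Real.exp (-(c / 8) * ∑ i, (a i : ℝ) ^ 2) := by
    refine Real.exp_le_exp.2 ?_
    have h := hlow (fun i => (a i : ℝ))
    have e : pt b a = ∑ i, (a i : ℝ) • b i := rfl
    rw [← e] at h
    linarith
  have e2 := hk n (pt b a)
  rw [Real.norm_eq_abs, abs_mul]
  calc |WH s (pt b a)| * |φ (pt b a)|
      ≤ |WH s (pt b a)| * (|C| * (1 + ‖pt b a‖ ^ 2) ^ l) := by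
        refine mul_le_mul_of_nonneg_left ((hφ _).trans ?_) (abs_nonneg _)
        exact mul_le_mul_of_nonneg_right (le_abs_self C) (by positivity)
    _ = |C| * (|WH s (pt b a)| * (1 + ‖pt b a‖ ^ 2) ^ l) := by ring
    _ ≤ |C| * (K * Real.exp (-(1 / 8) * ‖pt b a‖ ^ 2)) := by gcongr
    _ ≤ |C| * (K * Real.exp (-(c / 8) * ∑ i, (a i : ℝ) ^ 2)) := by gcongr
    _ = |C| * K * Real.exp (-(c / 8) * ∑ i, (a i : ℝ) ^ 2) := by ring

/-- the pairs `(u + w, u - w)` -/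
def pm {n : ℕ} (a : Z2 n) : Z2 n := (a.1 + a.2, a.1 - a.2)

theorem pm_injective {n : ℕ} : Function.Injective (pm (n := n)) := by
  rintro ⟨u, w⟩ ⟨u', w'⟩ h
  simp only [pm, Prod.mk.injEq] at h
  obtain ⟨h1, h2⟩ := h
  have h3 : ∀ i, u i = u' i ∧ w i = w' i := by
    intro i
    have a1 := congrFun h1 i
    have a2 := congrFun h2 i
    simp only [Pi.add_apply, Pi.sub_apply] at a1 a2
    omega
  rw [Prod.mk.injEq]
  exact ⟨funext fun i => (h3 i).1, funext fun i => (h3 i).2⟩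

theorem cg_pm {n : ℕ} (a : Z2 n) : Cg (pm a).1 (pm a).2 := by
  intro i
  refine ⟨a.2 i, ?_⟩
  simp only [pm, Pi.add_apply, Pi.sub_apply]
  ring

theorem cg_range {n : ℕ} (p : Z2 n) (h : Cg p.1 p.2) : p ∈ Set.range (pm (n := n)) := by
  choose w hw using h
  refine ⟨(p.1 - w, w), ?_⟩
  unfold pm
  refine Prod.ext ?_ ?_
  · show p.1 - w + w = p.1
    abel
  · funext i
    have := hw i
    show p.1 i - w i - w i = p.2 i
    omega

/-- congruent pairs are the pairs `(u + w, u - w)` -/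
theorem tsum_pm {n : ℕ} (f : Z2 n → ℝ) :
    ∑' p : Z2 n, ind (Cg p.1 p.2) * f p = ∑' a : Z2 n, f (pm a) := by
  have h := Function.Injective.tsum_eq (pm_injective (n := n))
    (f := fun p : Z2 n => ind (Cg p.1 p.2) * f p) (by
      intro p hp
      apply cg_range
      by_contra hc
      apply hp
      simp [ind, hc])
  rw [← h]
  refine tsum_congr fun a => ?_
  simp [ind, cg_pm a]

/-- the sum of the products over the pairs `(u + w, u - w)` is nonnegative -/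
theorem pm_nonneg {n : ℕ} {F : (Fin n → ℤ) → ℝ} (hF : Summable F) :
    (Summable fun a : Z2 n => F (pm a).1 * F (pm a).2) ∧
      0 ≤ ∑' a : Z2 n, F (pm a).1 * F (pm a).2 := by
  have h1 : Summable fun p : Z2 n => F p.1 * F p.2 :=
    summable_mul_of_summable_norm hF.norm hF.norm
  refine ⟨h1.comp_injective pm_injective, ?_⟩
  have h2 := tsum_pm (fun p : Z2 n => F p.1 * F p.2)
  rw [← h2, Pool.Agent.LPK.H54.prs hF]
  exact Finset.sum_nonneg fun c _ => sq_nonneg _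

/-- the values at a pair `(u + w, u - w)` -/
theorem pm_vals (h1 : DuaStmt) {n : ℕ} {κ : ℝ} {b b' : Fin n → V n} (hdu : Du κ b b')
    (a : Z2 n) :
    ‖pt b (pm a).1‖ ^ 2 = ‖pt b a.1‖ ^ 2 + ‖pt b a.2‖ ^ 2 + 2 * ⟪pt b a.1, pt b a.2⟫ ∧
    ‖pt b (pm a).2‖ ^ 2 = ‖pt b a.1‖ ^ 2 + ‖pt b a.2‖ ^ 2 - 2 * ⟪pt b a.1, pt b a.2⟫ ∧
    ⟪pt b (pm a).1, pt b (pm a).2⟫ = ‖pt b a.1‖ ^ 2 - ‖pt b a.2‖ ^ 2 := by
  obtain ⟨-, -, -, hadd, -⟩ := h1 n κ b b' hdu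
  obtain ⟨e1, e2, -, -⟩ := hadd a.1 a.2
  have f1 : pt b (pm a).1 = pt b a.1 + pt b a.2 := e1
  have f2 : pt b (pm a).2 = pt b a.1 - pt b a.2 := e2
  rw [f1, f2]
  refine ⟨?_, ?_, ?_⟩
  · rw [norm_add_sq_real]
    ring
  · rw [norm_sub_sq_real]
    ring
  · rw [inner_add_left, inner_sub_right, inner_sub_right, real_inner_self_eq_norm_sq,
      real_inner_self_eq_norm_sq, real_inner_comm (pt b a.1) (pt b a.2)]
    ring

/-- the product of the half width functions at a pair `(u + w, u - w)` -/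
theorem wh_pm (h1 : DuaStmt) {n : ℕ} {κ : ℝ} {b b' : Fin n → V n} (hdu : Du κ b b')
    (s : List ℤ) (a : Z2 n) :
    WH s (pt b (pm a).1) * WH s (pt b (pm a).2) =
      e1 s (‖pt b a.1‖ ^ 2 + ‖pt b a.2‖ ^ 2 + 2 * ⟪pt b a.1, pt b a.2⟫) *
        e1 s (‖pt b a.1‖ ^ 2 + ‖pt b a.2‖ ^ 2 - 2 * ⟪pt b a.1, pt b a.2⟫) *
        (G (pt b a.1) * G (pt b a.2)) := by
  obtain ⟨v1, v2, -⟩ := pm_vals h1 hdu a
  unfold WH
  rw [v1, v2]
  have e : Real.exp (-(‖pt b a.1‖ ^ 2 + ‖pt b a.2‖ ^ 2 + 2 * ⟪pt b a.1, pt b a.2⟫) / 4) *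
      Real.exp (-(‖pt b a.1‖ ^ 2 + ‖pt b a.2‖ ^ 2 - 2 * ⟪pt b a.1, pt b a.2⟫) / 4) =
      G (pt b a.1) * G (pt b a.2) := by
    unfold G
    rw [← Real.exp_add, ← Real.exp_add]
    congr 1
    ring
  rw [← e]
  ring

theorem wsl (h1 : DuaStmt) (_h2 : SumStmt) (h3 : FisStmt) : WslStmt := by
  intro n κ b b' hn hdu l z hz s
  obtain ⟨N, φ, C, hφ, hk⟩ := h3 n l z hn hz
  have hF : ∀ i, Summable fun a : Fin n → ℤ => WH s (pt b a) * φ i (pt b a) := fun i =>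
    wh_summable h1 hdu s l (φ i) C (hφ i)
  have hfun : (fun a : Z2 n => e1 s (‖pt b a.1‖ ^ 2 + ‖pt b a.2‖ ^ 2 + 2 * ⟪pt b a.1, pt b a.2⟫) *
    e1 s (‖pt b a.1‖ ^ 2 + ‖pt b a.2‖ ^ 2 - 2 * ⟪pt b a.1, pt b a.2⟫) *
    zk l z (‖pt b a.1‖ ^ 2 + ‖pt b a.2‖ ^ 2 + 2 * ⟪pt b a.1, pt b a.2⟫)
      (‖pt b a.1‖ ^ 2 + ‖pt b a.2‖ ^ 2 - 2 * ⟪pt b a.1, pt b a.2⟫) (‖pt b a.1‖ ^ 2 - ‖pt b a.2‖ ^ 2) *
    (G (pt b a.1) * G (pt b a.2))) = fun a : Z2 n =>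
      ∑ i, (WH s (pt b (pm a).1) * φ i (pt b (pm a).1)) *
        (WH s (pt b (pm a).2) * φ i (pt b (pm a).2)) := by
    funext a
    obtain ⟨v1, v2, v3⟩ := pm_vals h1 hdu a
    have e1' := wh_pm h1 hdu s a
    have e2 := hk (pt b (pm a).1) (pt b (pm a).2)
    rw [v1, v2, v3] at e2
    have e3' : ∑ i, (WH s (pt b (pm a).1) * φ i (pt b (pm a).1)) *
        (WH s (pt b (pm a).2) * φ i (pt b (pm a).2)) =
        (WH s (pt b (pm a).1) * WH s (pt b (pm a).2)) *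
          ∑ i, φ i (pt b (pm a).1) * φ i (pt b (pm a).2) := by
      rw [Finset.mul_sum]
      exact Finset.sum_congr rfl fun i _ => by ring
    rw [e3', ← e2, e1']
    ring
  rw [hfun]
  have hp := fun i => pm_nonneg (hF i)
  refine ⟨summable_sum fun i _ => (hp i).1, ?_⟩
  rw [Summable.tsum_finsetSum fun i _ => (hp i).1]
  exact Finset.sum_nonneg fun i _ => (hp i).2

end Pool.Agent.LPV.H88
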